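import Pool.Agent.ZGO.StmtsB
import Pool.Agent.ZTO.Stmts

/-!
# ZGO, part A: finite quotients, characters, the theorems

MP_c4a8aa_al (note 3430).  `ψ : G →* G` is injective, `d = ψ.range.index` is finite.  `Ker G k` and `KerStmt` are those of
`Pool/Agent/ZTO/Stmts.lean` (`KerStmt` is proved: `Pool.Agent.ZTO.H27.ker` in `Pool/Agent/Helper27_ZTO/KER.lean`; rows may
import it and need no hypothesis for it).

Rows: file `Pool/Agent/HelperNN_ZGO/XXX.lean`, namespace `Pool.Agent.ZGO.HNN`,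
theorem `xxx (hypotheses = the statements of the column uses) : XxxStmt`.
-/

set_option autoImplicit false

open scoped BigOperators

namespace Pool.Agent.ZGO

open Pool.Agent.ZTO (Ker)
open Pool.Agent.H50.CIG (CI)

/-! ## 1. Finite quotients -/

/-- the iterates of `ψ` as homomorphisms -/
def itr {G : Type} [Group G] (ψ : G →* G) : ℕ → (G →* G)
  | 0 => MonoidHom.id G
  | n + 1 => ψ.comp (itr ψ n)

theorem itr_apply {G : Type} [Group G] (ψ : G →* G) (n : ℕ) (g : G) :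
    itr ψ n g = (⇑ψ)^[n] g := by
  induction n with
  | zero => rfl
  | succ n ih =>
    rw [Function.iterate_succ_apply', ← ih]
    rfl

/-- the elements which some iterate of `ψ` maps into `N` -/
def Cs {G : Type} [Group G] (ψ : G →* G) (N : Subgroup G) : Subgroup G :=
  ⨆ n, N.comap (itr ψ n)

/-- the elements which lie modulo `N` in the image of every iterate of `ψ` -/
def Ls {G : Type} [Group G] (ψ : G →* G) (N : Subgroup G) : Subgroup G :=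
  ⨅ n, (itr ψ n).range ⊔ N

/-- FTG: Fitting decomposition of `G` modulo `N`.

Proof.  `N.comap (itr ψ n)` increases with `n` (`ψ N ≤ N`), normal of finite index (nonincreasing positive integers): constant from some `n0`, so `Cs ψ N` is `N.comap (itr ψ n0)`.
`(itr ψ n).range ⊔ N` decreases and has finite index `≤ [G : N]`: constant from some `n1` (or finiteness of the set of subgroups containing `N`).  Membership in `K ⊔ N`: `g = k n` with `k ∈ K`, `n ∈ N`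
(`Subgroup.mem_sup`-like, `N` normal).  Let `n` be the maximum of `n0`, `n1`.  For `g`: `ψ^n g ∈ (itr ψ n).range ≤ (itr ψ (2 n)).range ⊔ N`: `ψ^n g = ψ^(2n) h k`; `l = ψ^n h ∈ Ls` and
`c = g l⁻¹ ∈ Cs`.  `g ∈ Cs`, `g ∈ Ls`: `g = ψ^n h k`, `ψ^n g ∈ N`, so `ψ^(2n) h ∈ N`, `h ∈ Cs`, `ψ^n h ∈ N`, `g ∈ N`.  `l ∈ Ls`: `l = ψ^(n+1) h k`, `l' = ψ^n h ∈ Ls`. -/
def FtgStmt : Prop := ∀ (G : Type) [Group G] (ψ : G →* G) (N : Subgroup G), N.Normal →
  N.FiniteIndex → (∀ g ∈ N, ψ g ∈ N) →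
  (∀ g, g ∈ Cs ψ N ↔ ∃ n, (⇑ψ)^[n] g ∈ N) ∧
  (∀ g, g ∈ Ls ψ N ↔ ∀ n, ∃ h, ((⇑ψ)^[n] h)⁻¹ * g ∈ N) ∧
  (Cs ψ N).Normal ∧ N ≤ Cs ψ N ∧ N ≤ Ls ψ N ∧
  (∃ n, ∀ g ∈ Cs ψ N, (⇑ψ)^[n] g ∈ N) ∧
  (∀ g, ∃ c ∈ Cs ψ N, ∃ l ∈ Ls ψ N, g = c * l) ∧
  (∀ g ∈ Cs ψ N, g ∈ Ls ψ N → g ∈ N) ∧
  (∀ g ∈ Cs ψ N, ψ g ∈ Cs ψ N) ∧ (∀ g ∈ Ls ψ N, ψ g ∈ Ls ψ N) ∧
  (∀ l ∈ Ls ψ N, ∃ l' ∈ Ls ψ N, l⁻¹ * ψ l' ∈ N)

/-- IDX: index formulas.

Proof.  (1) induction, `ψ` is injective: `[ψ(G) : ψ(K)] = [G : K]` for `K = (itr ψ i).range` (write `(itr ψ (i+1)).range = K.map ψ`;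
`Subgroup.index_map` or `relIndex` multiplicativity).  (2) `f = itr ψ i`, `K = N.comap f ≥ N`: `[G : N] = [G : K] [K : N]`, `[G : K] = N.relIndex f.range`
(`Subgroup.index_comap`) `= [f.range ⊔ N : N]` (second isomorphism theorem, `Subgroup.relIndex_sup_right` or the like) and `[G : N] = [G : f.range ⊔ N] [f.range ⊔ N : N]`; `[G : N] ≠ 0`.
(3) is (2) for `i = 1`: `ψ.range ≤ ψ.range ⊔ N`.  (4) `itr ψ i` maps `N.comap (itr ψ (i+1))` into `N.comap ψ`, and `N.comap (itr ψ i)` is the preimage of `N`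
(`Subgroup.relIndex_comap`; the relative index in the image is at most the one in `N.comap ψ`, which is not zero). -/
def IdxStmt : Prop := ∀ (G : Type) [Group G] (ψ : G →* G), Function.Injective ψ →
  ψ.range.index ≠ 0 →
  (∀ i, (itr ψ i).range.index = ψ.range.index ^ i) ∧
  ∀ N : Subgroup G, N.Normal → N.FiniteIndex → (∀ g ∈ N, ψ g ∈ N) →
    (∀ i, N.relIndex (N.comap (itr ψ i)) = ((itr ψ i).range ⊔ N).index) ∧
    N.relIndex (N.comap ψ) ≤ ψ.range.index ∧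
    ∀ i, (N.comap (itr ψ i)).relIndex (N.comap (itr ψ (i + 1))) ≤ ψ.range.index ∧
      (N.comap (itr ψ i)).relIndex (N.comap (itr ψ (i + 1))) ≠ 0

/-- UNB (uses IDX; KerStmt is proved): the contracted parts are unbounded.

Proof.  `d = ψ.range.index ≥ 2`.  For `i` with `d^i ≥ k * [G : R]` let `M ≥ M0`, `M ≥ d^i`, `M ≥ [G : R]`, `N = Ker G M`.  `N ≤ (itr ψ i).range` (index `d^i ≤ M`, KER (6)), so
`[N.comap (itr ψ i) : N] = d^i` (IDX) and `[Cs ψ N : N] ≥ d^i` (`N.comap (itr ψ i) ≤ Cs ψ N`, all indices finite).  `N ≤ R`,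
`[Cs : N] = [Cs : Cs ⊓ R] [Cs ⊓ R : N]` and `[Cs : Cs ⊓ R] ≤ [G : R]`: so `[Cs ⊓ R : N] ≥ k`. -/
def UnbStmt : Prop := ∀ (G : Type) [Group G] [Group.FG G] (ψ : G →* G), Function.Injective ψ →
  2 ≤ ψ.range.index → ∀ R : Subgroup G, R.FiniteIndex → ∀ k M0 : ℕ, ∃ M, M0 ≤ M ∧
    k ≤ (Ker G M).relIndex (Cs ψ (Ker G M) ⊓ R)

/-- the structure used for the characters: `P = A M * B M` modulo `N M`, `ψ` is nilpotent on `A M` and onto on `B M` modulo `N M` -/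
structure Lev {P : Type} [Group P] (d : ℕ) (ψ : P →* P) (N A B : ℕ → Subgroup P) : Prop where
  nrm : ∀ M, (N M).Normal
  fin : ∀ M, (N M).FiniteIndex
  anr : ∀ M, (A M).Normal
  na : ∀ M, N M ≤ A M
  nb : ∀ M, N M ≤ B M
  nan : ∀ M, N (M + 1) ≤ N M
  aan : ∀ M, A (M + 1) ≤ A M
  ban : ∀ M, B (M + 1) ≤ B M
  nps : ∀ M, ∀ g ∈ N M, ψ g ∈ N M
  aps : ∀ M, ∀ g ∈ A M, ψ g ∈ A M
  bps : ∀ M, ∀ g ∈ B M, ψ g ∈ B M
  nil : ∀ M, ∃ n, ∀ g ∈ A M, (⇑ψ)^[n] g ∈ N M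
  mul : ∀ M g, ∃ a ∈ A M, ∃ b ∈ B M, g = a * b
  dis : ∀ M, ∀ g ∈ A M, g ∈ B M → g ∈ N M
  bac : ∀ M, ∀ b ∈ B M, ∃ b' ∈ B M, b⁻¹ * ψ b' ∈ N M
  unb : ∀ k M0, ∃ M, M0 ≤ M ∧ k ≤ (N M).relIndex (A M)
  ser : ∀ M i, ∀ a ∈ A M, ∀ g, (⇑ψ)^[i + 1] g ∈ N M → (⇑ψ)^[i] (a * g * a⁻¹ * g⁻¹) ∈ N M
  idx : ∀ M, (N M).relIndex ((N M).comap ψ) ≤ d
  rfi : ψ.range.FiniteIndex

/-- LVL (uses FTG, IDX, UNB; KerStmt is proved): the structure exists.

Proof.  `d = ψ.range.index`, `P = Ls ψ (Ker G d)`, `ψ'` = restriction of `ψ` (FTG).  With `K = Ker G (M + d)`: `N M = K.subgroupOf P`, `A M = (Cs ψ K ⊓ Ker G d).subgroupOf P`,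
`B M = (Ls ψ K).subgroupOf P`.  `Ker G d ≤ P` (so `P` has finite index and `Cs ψ K ⊓ Ker G d ≤ P`), `K ≤ Ker G d` (KER (5)), `Ls ψ K ≤ P` (`Ls`, `Cs` are monotone in `N`).  `mul`: `g ∈ P`, `g = c l` by FTG for `K`;
`l ∈ Ls ψ K ≤ P`, so `c = g l⁻¹ ∈ Ls ψ (Ker G d)` and `c ∈ Cs ψ K ≤ Cs ψ (Ker G d)`: `c ∈ Ker G d` (FTG for `Ker G d`).  `nil`, `dis`, `bac`, `aps`, `bps`: FTG (`b' ∈ Ls ψ K ≤ P`).  `unb`: UNB with `R = Ker G d`, `M - d` in place of `M`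
(`M0 + d ≤ M`); the relative index does not change under `subgroupOf P` as everything is in `P`.  `ser`: KER (7) with `k = d`, `A = K.comap (itr ψ (i+1))`, `B = K.comap (itr ψ i)` (IDX (4); normal), `a ∈ Ker G d`.
`idx`: IDX (3); `(H.subgroupOf P).relIndex (K.subgroupOf P) = H.relIndex (K ⊓ P) ≤ H.relIndex K`.  `rfi`: `[G : ψ(P)] = [G : ψ(G)] [ψ(G) : ψ(P)]` is finite, so `[P : ψ(P)]` is finite. -/
def LvlStmt : Prop := ∀ (G : Type) [Group G] [Group.FG G] (ψ : G →* G), Function.Injective ψ →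
  2 ≤ ψ.range.index → ∃ (P : Subgroup G) (ψ' : P →* P) (N A B : ℕ → Subgroup P),
    P.FiniteIndex ∧ (∀ g : P, (ψ' g : G) = ψ g) ∧ Lev ψ.range.index ψ' N A B

/-! ## 2. Finite nilpotent groups -/

/-- LCS: `[γ_i, γ_j] ≤ γ_(i+j)`.

Proof.  Induction on `j` for all `i`: `j = 0` is the definition.  `⁅λ_i, ⁅λ_j, ⊤⁆⁆`: by the three subgroups lemma (`Subgroup.commutator_commutator_eq_bot_of_rotate`, in the quotient by the normal subgroup
`λ_(i+j+2)`) it is enough that `⁅⁅λ_j, ⊤⁆, λ_i⁆`: rotate: `⁅⁅⊤, λ_i⁆, λ_j⁆ = ⁅λ_(i+1), λ_j⁆ ≤ λ_(i+j+2)` and `⁅⁅λ_i, λ_j⁆, ⊤⁆ ≤ ⁅λ_(i+j+1), ⊤⁆ = λ_(i+j+2)`. -/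
def LcsStmt : Prop := ∀ (G : Type) [Group G] (i j : ℕ),
  ⁅(⊤ : Subgroup G).lowerCentralSeries i, (⊤ : Subgroup G).lowerCentralSeries j⁆ ≤
    (⊤ : Subgroup G).lowerCentralSeries (i + j + 1)

/-- NPL (uses LCS): nilpotent groups with a contraction into the commutator subgroup are small.

Proof.  `λ_i` = the lower central series.  `ψ^n(λ_i) ≤ λ_(2i+1)` by induction: `i = 0` is the hypothesis; `ψ^n ⁅λ_i, ⊤⁆ ≤ ⁅λ_(2i+1), λ_1⁆ ≤ λ_(2i+3)`.  So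
`ψ^(n j)(⊤) ≤ λ_(2^j - 1)`.  `[Δ : ψ^(n j)(Δ)] = |ker ψ^(n j)| ≤ d^(n j)`.  If `λ_i ≠ ⊥` then `[Δ : λ_i] ≥ 2^i` (`λ_(k+1) < λ_k` for `k < i`, otherwise `λ_i = λ_k = ⊥` by nilpotency).  Choose `j` with
`2^(2^j - 1) > d^(n j)`, `K = d^(n j)` (may assume `d ≥ 1`: `ker ψ` is not empty): `λ_(2^j - 1) = ⊥`, so `ψ^(n j) = 1` and `|Δ| = |ker ψ^(n j)| ≤ K`. -/
def NplStmt : Prop := ∀ d n : ℕ, ∃ K : ℕ, ∀ (Δ : Type) [Group Δ] [Finite Δ] (ψ : Δ →* Δ),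
  Group.IsNilpotent Δ → Nat.card ψ.ker ≤ d → (∀ x, (⇑ψ)^[n] x ∈ commutator Δ) → Nat.card Δ ≤ K

/-- QTN: the quotient `A M / N M`.

Proof.  `Δ = A M ⧸ (N M).subgroupOf (A M)`, `ψ'` induced by `ψ` (`aps`, `nps`).  Nilpotent: `H i = {x | ψ'^i x = 1}` is an ascending central series by `ser` (`⁅x, g⁆ = ⁅g, x⁆⁻¹`) and `H n = ⊤` by `nil`
(`Group.nilpotent_iff_finite_ascending_central_series`).  `ker ψ'` embeds into `(N M).comap ψ / N M`: `idx`. -/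
def QtnStmt : Prop := ∀ (P : Type) [Group P] (d : ℕ) (ψ : P →* P) (N A B : ℕ → Subgroup P),
  Lev d ψ N A B → ∀ M : ℕ, ∃ (Δ : Type) (_ : Group Δ) (_ : Finite Δ) (ψ' : Δ →* Δ) (π : A M →* Δ),
    Function.Surjective π ∧ (∀ a : A M, π a = 1 ↔ (a : P) ∈ N M) ∧
    (∀ a b : A M, (b : P) = ψ a → π b = ψ' (π a)) ∧ Group.IsNilpotent Δ ∧
    Nat.card ψ'.ker ≤ d ∧ Nat.card Δ = (N M).relIndex (A M)

/-! ## 3. Characters -/

/-- the circle of rational numbers modulo one -/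
abbrev QZ : Type := AddCircle (1 : ℚ)

/-- the functions on `P` given by a character of `A`: additive on `A`, right invariant under `B` -/
def Chr {P : Type} [Group P] (A B : Subgroup P) : AddSubgroup (P → QZ) where
  carrier := {f | (∀ a ∈ A, ∀ b ∈ A, f (a * b) = f a + f b) ∧ ∀ g, ∀ b ∈ B, f (g * b) = f g}
  zero_mem' := by
    refine ⟨fun a _ b _ => ?_, fun g b _ => rfl⟩
    simp
  add_mem' := by
    intro f h hf hh
    refine ⟨fun a ha b hb => ?_, fun g b hb => ?_⟩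
    · simp only [Pi.add_apply]
      rw [hf.1 a ha b hb, hh.1 a ha b hb]
      abel
    · simp only [Pi.add_apply]
      rw [hf.2 g b hb, hh.2 g b hb]
  neg_mem' := by
    intro f hf
    refine ⟨fun a ha b hb => ?_, fun g b hb => ?_⟩
    · simp only [Pi.neg_apply]
      rw [hf.1 a ha b hb]
      abel
    · simp only [Pi.neg_apply]
      rw [hf.2 g b hb]

/-- all of them -/
def Xs {P : Type} [Group P] (A B : ℕ → Subgroup P) : AddSubgroup (P → QZ) :=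
  ⨆ M, Chr (A M) (B M)

/-- CHM: facts on characters.

Proof.  (1) `aan`, `ban`.  (2) directed supremum (`AddSubgroup.mem_iSup_of_directed`).  (3) `f 1 = f 1 + f 1`; `1 * b`.  (4) `ψ (a b) = ψ a ψ b`, `aps`, `bps`.  (5) right invariance is clear; `g⁻¹ = c l`, `c ∈ A M`,
`l ∈ B M` (`mul`): for `a ∈ A M`: `g⁻¹ a = c (l a l⁻¹) l`, so `f (g⁻¹ a) = f c + f (l a l⁻¹)` and `f (g⁻¹) = f c`: the new function is `a ↦ f (l a l⁻¹)` on `A M`, additive.  (6) `g⁻¹ = c l`; `l = ψ^n l' k` with `l' ∈ B M`, `k ∈ N M` (iterate `bac`, `nps`);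
`g⁻¹ ψ^n x = c ψ^n(l' x) k'`, `k' ∈ N M ≤ B M`; `l' x = a b` (`mul`), `f (c ψ^n(a) ψ^n(b)) = f (c ψ^n a) = f c + f (ψ^n a)` and `f (ψ^n a) = f (ψ^n (a b)) = 0`; `f (g⁻¹) = f c`.
(7) `x = a b`: `f (ψ^n x) = f (ψ^n a) = 0` as `ψ^n a ∈ N M` (`nil`, (3)).  (8) `f (a b) = f a`: the values of `f` are the values of the additive `f` on `A M`. -/
def ChmStmt : Prop := ∀ (P : Type) [Group P] (d : ℕ) (ψ : P →* P) (N A B : ℕ → Subgroup P),
  Lev d ψ N A B →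
  (∀ M M', M ≤ M' → Chr (A M) (B M) ≤ Chr (A M') (B M')) ∧
  (∀ f, f ∈ Xs A B ↔ ∃ M, f ∈ Chr (A M) (B M)) ∧
  (∀ M, ∀ f ∈ Chr (A M) (B M), f 1 = 0 ∧ ∀ b ∈ B M, f b = 0) ∧
  (∀ M, ∀ f ∈ Chr (A M) (B M), (fun x => f (ψ x)) ∈ Chr (A M) (B M)) ∧
  (∀ M, ∀ f ∈ Chr (A M) (B M), ∀ g, (fun x => f (g⁻¹ * x) - f g⁻¹) ∈ Chr (A M) (B M)) ∧
  (∀ M, ∀ f ∈ Chr (A M) (B M), ∀ n, (∀ x, f ((⇑ψ)^[n] x) = 0) →
    ∀ g x, f (g⁻¹ * (⇑ψ)^[n] x) - f g⁻¹ = 0) ∧
  (∀ M, ∀ f ∈ Chr (A M) (B M), ∃ n, ∀ x, f ((⇑ψ)^[n] x) = 0) ∧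
  (∀ f ∈ Xs A B, ∃ S : AddSubgroup QZ, ∀ u, u ∈ S ↔ ∃ x, f x = u)

/-- CNT (uses CHM): finitely many characters are invariant under a subgroup of finite index.

Proof.  Such an `f` has at most `r = [P : H]` values, its values form a subgroup of `QZ` (CHM (8)) with at most `r` elements, so `r! • f x = 0`.  `f` is determined by its values on `r` representatives, which lie in the finite
set `{u | r! • u = 0}` (`AddCircle.finite_torsion`). -/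
def CntStmt : Prop := ∀ (P : Type) [Group P] (d : ℕ) (ψ : P →* P) (N A B : ℕ → Subgroup P),
  Lev d ψ N A B → ∀ H : Subgroup P, H.FiniteIndex →
  {f : P → QZ | f ∈ Xs A B ∧ ∀ h ∈ H, ∀ x, f (h * x) = f x}.Finite ∧
  {f : P → QZ | f ∈ Xs A B ∧ ∀ x, ∀ h ∈ H, f (x * h) = f x}.Finite

/-- EXT: characters separate.

Proof.  `D = ⁅A M, A M⁆ ⊔ N M` is normal, `A M / D` is an abelian group in which the class of `a` is not trivial: there is an additive `χ` to `QZ` with `χ a ≠ 0`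
(`CharacterModule.exists_character_apply_ne_zero_of_ne_zero` for `Additive` of the quotient).  `f g = χ a'` where `g = a' b'` (`mul`); well defined: `a' b' = a'' b''` implies
`a''⁻¹ a' = b'' b'⁻¹ ∈ A M ⊓ B M ≤ N M` (`dis`). -/
def ExtStmt : Prop := ∀ (P : Type) [Group P] (d : ℕ) (ψ : P →* P) (N A B : ℕ → Subgroup P),
  Lev d ψ N A B → ∀ M, ∀ a ∈ A M, a ∉ ⁅A M, A M⁆ ⊔ N M → ∃ f ∈ Chr (A M) (B M), f a ≠ 0

/-- INF (uses CHM, EXT, NPL, QTN): there are infinitely many characters.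

Proof.  Otherwise there is `M0` with `Xs A B = Chr (A M0) (B M0)` (finite set, CHM (1), (2)).  `n` from `nil` for `M0`; `M ≥ M0`, `a ∈ A M ≤ A M0`: `ψ^n a ∈ A M ⊓ N M0`; every
`f ∈ Chr (A M) (B M)` is in `Chr (A M0) (B M0)`, so `f (ψ^n a) = 0` (CHM (3), `N M0 ≤ B M0`); by EXT `ψ^n a ∈ ⁅A M, A M⁆ ⊔ N M`.  In `Δ` of QTN: `ψ'^n x ∈ commutator Δ` for all `x`
(`π` is onto, maps `⁅A M, A M⁆` into the commutator subgroup and `N M` to `1`), so `[A M : N M] = |Δ| ≤ K(d, n)` by NPL, for all `M ≥ M0`: against `unb` (`k = K + 1`). -/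
def InfStmt : Prop := ∀ (P : Type) [Group P] (d : ℕ) (ψ : P →* P) (N A B : ℕ → Subgroup P),
  Lev d ψ N A B → Infinite (Xs A B)

/-- SHI (uses CHM, CNT, INF): the shift module of the characters.

Proof.  `θ f = f ∘ ψ`, `(ρ g f) x = f (g⁻¹ x) - f g⁻¹` (CHM (4), (5)); `ρ` is a homomorphism: `f 1 = 0`.  `inf`: INF.  `nil`: CHM (7), `(θ^[n] f) x = f (ψ^[n] x)`.  `eqv`: compute.  `ker`: CHM (6).  `fin`: if `f (ψ x) = 0` for all `x`
then by CHM (6), `n = 1`: `f (g (ψ x)) = f g`, so `f` is right invariant under `ψ.range`: CNT and `rfi`. -/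
def ShiStmt : Prop := ∀ (P : Type) [Group P] (d : ℕ) (ψ : P →* P) (N A B : ℕ → Subgroup P),
  Lev d ψ N A B → ∃ (θ : Xs A B →+ Xs A B) (ρ : P →* AddMonoid.End (Xs A B)),
    (∀ (f : Xs A B) (x : P), (θ f : P → QZ) x = (f : P → QZ) (ψ x)) ∧
    (∀ (g : P) (f : Xs A B) (x : P),
      (ρ g f : P → QZ) x = (f : P → QZ) (g⁻¹ * x) - (f : P → QZ) g⁻¹) ∧
    Shift ψ θ ρ

/-- THT: a finitely generated torsion group has finitely many homomorphisms to `QZ`.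

Proof.  They are determined by the values on a finite generating set `S`, and `f s` lies in the finite set `{u | n • u = 0}`, `n` = the order of `s` (`AddCircle.finite_torsion`). -/
def ThtStmt : Prop := ∀ (H : Type) [Group H] [Group.FG H], (∀ h : H, IsOfFinOrder h) →
  {f : H → QZ | ∀ a b, f (a * b) = f a + f b}.Finite

/-- SEV (uses CNT, THT): finitely many characters are fixed by a subgroup of finite index.

Proof.  The restriction to `H` is a homomorphism: finitely many (THT; `H` is finitely generated, torsion).  If `f`, `f'` have the same restriction then `f - f'` satisfies `(f - f') (h x) = (f - f') x`: CNT.  A set is finite if it has a map to a finite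
set with finite fibres (`Set.Finite.of_finite_fibers` or the like). -/
def SevStmt : Prop := ∀ (P : Type) [Group P] [Group.FG P] (d : ℕ) (ψ : P →* P)
  (N A B : ℕ → Subgroup P), Lev d ψ N A B → (∀ g : P, IsOfFinOrder g) → ∀ H : Subgroup P,
  H.FiniteIndex → {f : P → QZ | f ∈ Xs A B ∧ ∀ h ∈ H, ∀ x, f (h * x) = f h + f x}.Finite

/-! ## 4. The theorems -/

/-- ZGN (uses LVL, SHI, SEV, BMN): a finitely generated torsion group is not isomorphic to a proper subgroup of finite index.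

Proof.  Otherwise `2 ≤ ψ.range.index` (not `0`, not `1`).  LVL gives `P`, finitely generated and torsion; SHI gives the shift module `Xs A B`; BMN gives `H` of finite index in `P` and an infinite `Z ≤ Xs A B` with
`ρ h z = z`, i.e. `z (h⁻¹ x) - z h⁻¹ = z x`, i.e. `z (h x) = z h + z x` for `h ∈ H`: against SEV. -/
def ZgnStmt : Prop := ∀ (G : Type) [Group G] [Group.FG G], (∀ g : G, IsOfFinOrder g) →
  ∀ ψ : G →* G, Function.Injective ψ → ψ.range.FiniteIndex → ψ.range = ⊤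

/-- SRG (uses ZGN): surjections of a proper subgroup of finite index (copy of row SRT of ZTO: `Pool/Agent/Helper70_ZTO`).

Proof.  See `SrtStmt` in `Pool/Agent/ZTO/Stmts.lean`; only the last step is different: `ψ` = the inverse of `φ` followed by the inclusion is injective with image `H`, so `H = ⊤` by ZGN. -/
def SrgStmt : Prop := ∀ (G : Type) [Group G] [Group.FG G] [Infinite G] (H : Subgroup G)
  (φ : H →* G), H.FiniteIndex → H ≠ ⊤ → Function.Surjective φ →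
  (∀ N : Subgroup G, N.Normal → (∀ y ∈ N, ∃ hy : y ∈ H, φ ⟨y, hy⟩ = 1) → (N : Set G).Finite) →
  CI G

end Pool.Agent.ZGO
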