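import Mathlib

/-!
# ZGO, part B: shift modules over finitely generated torsion groups

MP_c4a8aa_al (note 3430).  `P` is a group with an endomorphism `ψ` (not assumed injective), `X` an abelian group with an
endomorphism `θ`, `ρ` an action of `P` on `X`, `θ (ψ g x) = g (θ x)`.

Rows: file `Pool/Agent/HelperNN_ZGO/XXX.lean`, namespace `Pool.Agent.ZGO.HNN`,
theorem `xxx (hypotheses = the statements of the column uses) : XxxStmt`.
`[FG]` in a docstring means that `P` is finitely generated.  `(⇑θ)^[n]` are iterates of functions.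
-/

set_option autoImplicit false

open scoped BigOperators

namespace Pool.Agent.ZGO

/-! ## 1. Shift modules -/

/-- an infinite abelian group with a locally nilpotent endomorphism `θ` with finite kernel and an action of `P` which preserves every
`ker θ^n`; `θ (ψ g x) = g (θ x)` -/
structure Shift {P : Type} [Group P] (ψ : P →* P) {X : Type} [AddCommGroup X] (θ : X →+ X)
    (ρ : P →* AddMonoid.End X) : Prop where
  inf : Infinite X
  nil : ∀ x, ∃ n, (⇑θ)^[n] x = 0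
  fin : {x | θ x = 0}.Finite
  eqv : ∀ g x, θ (ρ (ψ g) x) = ρ g (θ x)
  ker : ∀ g n x, (⇑θ)^[n] x = 0 → (⇑θ)^[n] (ρ g x) = 0

/-- `θ` is onto, and every infinite subgroup which is stable under `θ` and some `ψ`-stable subgroup of finite index is everything -/
structure Simp {P : Type} [Group P] (ψ : P →* P) {X : Type} [AddCommGroup X] (θ : X →+ X)
    (ρ : P →* AddMonoid.End X) : Prop where
  shf : Shift ψ θ ρ
  sur : Function.Surjective θ
  smp : ∀ H : Subgroup P, H.FiniteIndex → (∀ g ∈ H, ψ g ∈ H) → ∀ Y : AddSubgroup X,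
    (∀ y ∈ Y, θ y ∈ Y) → (∀ g ∈ H, ∀ y ∈ Y, ρ g y ∈ Y) → Y = ⊤ ∨ (Y : Set X).Finite

/-- FNK: elementary facts.

Proof.  (1) induction: `{θ^[n+1] x = 0}` is the preimage of the finite set `{θ^[n] y = 0}` under `θ`, whose fibres are cosets of the finite `ker θ`.
(2) induction from `eqv`.  (3) `x` lies in the finite subgroup `{θ^[n] x = 0}` for some `n`. -/
def FnkStmt : Prop := ∀ (P : Type) [Group P] (ψ : P →* P) (X : Type) [AddCommGroup X] (θ : X →+ X)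
  (ρ : P →* AddMonoid.End X), Shift ψ θ ρ →
  (∀ n, {x | (⇑θ)^[n] x = 0}.Finite) ∧
  (∀ n g x, (⇑θ)^[n] (ρ ((⇑ψ)^[n] g) x) = ρ g ((⇑θ)^[n] x)) ∧
  (∀ x : X, ∃ m : ℕ, 0 < m ∧ m • x = 0)

/-- CUT: restriction to a stable subgroup `H` and a stable infinite subgroup `Z`.

Proof.  Restrict and corestrict (`MonoidHom.codRestrict`, `AddMonoidHom.codRestrict`; build `ρ'` by hand); iterates of `θ'` are
restrictions of the iterates of `θ`. -/
def CutStmt : Prop := ∀ (P : Type) [Group P] (ψ : P →* P) (X : Type) [AddCommGroup X] (θ : X →+ X)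
  (ρ : P →* AddMonoid.End X), Shift ψ θ ρ → ∀ (H : Subgroup P) (Z : AddSubgroup X),
  (∀ g ∈ H, ψ g ∈ H) → (∀ z ∈ Z, θ z ∈ Z) → (∀ g ∈ H, ∀ z ∈ Z, ρ g z ∈ Z) → (Z : Set X).Infinite →
  ∃ (ψ' : H →* H) (θ' : Z →+ Z) (ρ' : H →* AddMonoid.End Z), (∀ h : H, (ψ' h : P) = ψ h) ∧
    (∀ z : Z, (θ' z : X) = θ z) ∧ (∀ (h : H) (z : Z), (ρ' h z : X) = ρ h z) ∧ Shift ψ' θ' ρ'

/-- MIN (uses CUT, FNK): a simple subsystem.

Proof.  Consider all pairs `(H, Z)`: `H` of finite index and `ψ`-stable, `Z` infinite, stable under `θ` and `H` (`(⊤, ⊤)` is one); choose one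
with the least number `n` of elements `z ∈ Z` with `θ z = 0`.  (a) For every `i`, `Z^i = θ^i(Z)` is again admissible with `H` (infinite because
`ker θ` is finite; `g (θ z) = θ (ψ g z)`), so `ker θ ∩ Z ⊆ Z^i` (finite sets of the same cardinality `n`).  For `z ∈ Z` with `θ^[j] z = 0`: `z ∈ θ(Z)` by
induction on `j`: `θ^[j] z ∈ ker θ ∩ Z`, so `θ^[j] z = θ^[j+1] w`, `w ∈ Z`, `z - θ w` is killed by `θ^[j]`.  So `θ(Z) = Z` (this holds
for every minimal pair).  (b) let `H' ≤ H` be of finite index, `ψ`-stable, `Y ≤ Z` infinite, stable under `θ` and `H'`: the pair `(H', Y)` is admissible,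
so `ker θ ∩ Z ⊆ Y` and `(H', Y)` is minimal, `θ(Y) = Y` by (a).  `z ∈ Z` with `θ^[j] z = 0` lies in `Y`, induction on `j`: `θ z ∈ Y = θ(Y)`,
`θ z = θ y`, `z - y ∈ ker θ ∩ Z ⊆ Y`.  Restrict by CUT; a subgroup of finite index of `H` is mapped to a subgroup of finite index of `P`. -/
def MinStmt : Prop := ∀ (P : Type) [Group P] (ψ : P →* P) (X : Type) [AddCommGroup X] (θ : X →+ X)
  (ρ : P →* AddMonoid.End X), Shift ψ θ ρ → ∃ (H : Subgroup P) (Z : AddSubgroup X)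
    (ψ' : H →* H) (θ' : Z →+ Z) (ρ' : H →* AddMonoid.End Z), H.FiniteIndex ∧
    (∀ h : H, (ψ' h : P) = ψ h) ∧ (∀ z : Z, (θ' z : X) = θ z) ∧
    (∀ (h : H) (z : Z), (ρ' h z : X) = ρ h z) ∧ Simp ψ' θ' ρ'

/-- CUG: restriction to a `ψ`-stable subgroup of finite index, the module is unchanged.

Proof.  Immediate; a subgroup of finite index of `H` is mapped (`Subgroup.map H.subtype`) to a subgroup of finite index of `P`. -/
def CugStmt : Prop := ∀ (P : Type) [Group P] (ψ : P →* P) (X : Type) [AddCommGroup X] (θ : X →+ X)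
  (ρ : P →* AddMonoid.End X), Simp ψ θ ρ → ∀ H : Subgroup P, H.FiniteIndex → (∀ g ∈ H, ψ g ∈ H) →
  ∃ ψ' : H →* H, (∀ h : H, (ψ' h : P) = ψ h) ∧ Simp ψ' θ (ρ.comp H.subtype)

/-- PRI (uses FNK): a prime.

Proof.  `ker θ` contains some `x ≠ 0` (otherwise `X = 0` by `nil`), a multiple `x0` of it has prime order `p` (FNK (3)).  All subgroups below are
stable under `θ` and `P` (`smp` with `H = ⊤`).  `X[p] = {p x = 0}` is everything (first case) or finite.  If it is finite, `p X` (isomorphic to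
`X / X[p]`) is infinite: `p X = X`; then there are `x_k` with `p x_(k+1) = x_k`, of order `p^(k+1)`, so `{x | ∃ k, p^k x = 0}` is infinite, hence everything. -/
def PriStmt : Prop := ∀ (P : Type) [Group P] (ψ : P →* P) (X : Type) [AddCommGroup X] (θ : X →+ X)
  (ρ : P →* AddMonoid.End X), Simp ψ θ ρ → ∃ p : ℕ, p.Prime ∧ ((∀ x : X, p • x = 0) ∨
    ({x : X | p • x = 0}.Finite ∧ (∀ x : X, ∃ y : X, p • y = x) ∧ ∀ x : X, ∃ k : ℕ, p ^ k • x = 0))

/-- DIV: the divisible case.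

Proof.  `X[p^2]` is finite (multiplication by `p` maps it to `X[p]` with finite fibres) and `P`-stable; `H` = the set of the `g` which act trivially on it
(finite index: finitely many permutations of `X[p^2]`).  Claim: if `h ∈ H` has order `n` then `ρ h = 1`, by strong induction on `n`.  `n = q n'`,
`q` prime: `h^q` acts trivially.  `W = {ρ h x - x}` is a subgroup, `p W = W` (as `p X = X`), and for `w ∈ W`: `∑ i < q, ρ (h^i) w = 0`
(telescoping, `w = ρ h x - x`, `ρ (h^q) x = x`).  For `w ∈ W` with `p^2 w = 0`: `h` fixes `w`, so `q w = 0`, hence `p w = 0` (`q = p`, or `w = 0` if `q ≠ p` by Bezout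
with `p^2`).  If `w ∈ W` and `p w = 0`: `w = p w'`, `w' ∈ W`, `p^2 w' = 0`, so `w = p w' = 0`.  So `W` has no element of order `p`; every element of `X` has
order a power of `p`: `W = 0`. -/
def DivStmt : Prop := ∀ (P : Type) [Group P] (X : Type) [AddCommGroup X]
  (ρ : P →* AddMonoid.End X) (p : ℕ), p.Prime → (∀ g : P, IsOfFinOrder g) →
  {x : X | p • x = 0}.Finite → (∀ x : X, ∃ y : X, p • y = x) → (∀ x : X, ∃ k : ℕ, p ^ k • x = 0) →
  ∃ H : Subgroup P, H.FiniteIndex ∧ ∀ h ∈ H, ∀ x, ρ h x = x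

/-- PER (uses FNK): periodicity.

Proof.  `Z = {x | θ^[i] x = 0}` is finite (FNK).  For `j` let `r_j : P →* (maps Z → Z)` (for example `Equiv.Perm Z` or `Function.End Z`),
`r_j g (θ^[j] y) = θ^[j] (ρ g y)` for `y` with `θ^[i+j] y = 0` (well defined by `ker`, defined everywhere by `sur`).
`r_(j+1) (ψ g) = r_j g` (`eqv`; write `x = θ^[j+1] y`).  `P` is finitely generated: the set `R` of all homomorphisms `P → maps` is finite; `T r = r ∘ ψ`
maps `R` to `R`, `r_j = T (r_(j+1))`.  There is `e ≥ 1` with `T^[2e] = T^[e]` (finite set of self-maps).  `r_j = T^[e] r_(j+e)`, so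
`T^[e] r_j = T^[2e] r_(j+e) = T^[e] r_(j+e) = r_j`: this is the claim. -/
def PerStmt : Prop := ∀ (P : Type) [Group P] [Group.FG P] (ψ : P →* P) (X : Type) [AddCommGroup X]
  (θ : X →+ X) (ρ : P →* AddMonoid.End X), Simp ψ θ ρ → ∀ i : ℕ, ∃ e : ℕ, 1 ≤ e ∧
  ∀ (g : P) (j : ℕ) (x : X), (⇑θ)^[i + j] x = 0 → (⇑θ)^[j] (ρ ((⇑ψ)^[e] g) x - ρ g x) = 0

/-- ONE (uses PER, FNK): the subgroup acting trivially on all the factors.

Proof.  `H = {g | ∀ j x, θ^[j+1] x = 0 → θ^[j] (ρ g x - x) = 0}` is a subgroup (`ker`).  Finite index: `g ∈ H` if and only if `r_j g = 1` for all `j`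
(notation of PER, `i = 1`); all homomorphisms from `P` to the permutations of the finite set `{θ x = 0}` are finitely many, and `H` contains the
intersection of their kernels (see `KerStmt` in `Pool/Agent/ZTO/Stmts.lean`, proved in `Pool/Agent/Helper27_ZTO/KER.lean`).  `ψ`-stable: `j ≥ 1`:
`θ^[j] (ρ (ψ g) x - x) = θ^[j-1] (ρ g (θ x) - θ x) = 0`.  `j = 0`, `θ x = 0`: `e` from PER (`i = 1`), `x = θ^[e] y`:
`ρ (ψ g) x = θ^[e] (ρ (ψ^[e] (ψ g)) y) = θ^[e] (ρ (ψ g) y) = θ^[e-1] (ρ g (θ y)) = θ^[e-1] (θ y) = x`. -/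
def OneStmt : Prop := ∀ (P : Type) [Group P] [Group.FG P] (ψ : P →* P) (X : Type) [AddCommGroup X]
  (θ : X →+ X) (ρ : P →* AddMonoid.End X), Simp ψ θ ρ → ∃ H : Subgroup P, H.FiniteIndex ∧
  (∀ g ∈ H, ψ g ∈ H) ∧
  ∀ g ∈ H, ∀ (j : ℕ) (x : X), (⇑θ)^[j + 1] x = 0 → (⇑θ)^[j] (ρ g x - x) = 0

/-! ## 2. The unipotent case: the operator `J` -/

/-- simple, of exponent `p`, trivial action on the factors, periodic, and the action is not trivial -/
structure Uni {P : Type} [Group P] (p : ℕ) (ψ : P →* P) {X : Type} [AddCommGroup X] (θ : X →+ X)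
    (ρ : P →* AddMonoid.End X) : Prop where
  sim : Simp ψ θ ρ
  prm : p.Prime
  exp : ∀ x : X, p • x = 0
  one : ∀ (g : P) (j : ℕ) (x : X), (⇑θ)^[j + 1] x = 0 → (⇑θ)^[j] (ρ g x - x) = 0
  per : ∀ i : ℕ, ∃ e : ℕ, 1 ≤ e ∧ ∀ (g : P) (j : ℕ) (x : X), (⇑θ)^[i + j] x = 0 →
    (⇑θ)^[j] (ρ ((⇑ψ)^[e] g) x - ρ g x) = 0
  non : ∃ (g : P) (x : X), ρ g x ≠ x

/-- `J Y` = the elements on which `P` acts trivially modulo `Y` -/
def Jo {P : Type} [Group P] {X : Type} [AddCommGroup X] (ρ : P →* AddMonoid.End X)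
    (Y : AddSubgroup X) : AddSubgroup X where
  carrier := {x | ∀ g, ρ g x - x ∈ Y}
  zero_mem' := by
    intro g
    simp
  add_mem' := by
    intro a b ha hb g
    have h : ρ g (a + b) - (a + b) = (ρ g a - a) + (ρ g b - b) := by
      rw [map_add]
      abel
    rw [h]
    exact Y.add_mem (ha g) (hb g)
  neg_mem' := by
    intro a ha g
    have h : ρ g (-a) - (-a) = -(ρ g a - a) := by
      rw [map_neg]
      abel
    rw [h]
    exact Y.neg_mem (ha g)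

/-- JTI: `J` commutes with preimages under `θ`.

Proof.  `m = 1`, `a = 1` first: `Y' = θ^-1 Y`.  If `θ (ρ g x - x) ∈ Y` for all `g` then `ρ g (θ x) - θ x = θ (ρ (ψ g) x - x) ∈ Y`.  Conversely let
`ρ g (θ x) - θ x ∈ Y` for all `g`; `θ^[i] x = 0` for some `i`, `e` from `per` for this `i`, `j = 0`: `ρ (ψ^[e] g) x = ρ g x`, so
`θ (ρ g x - x) = θ (ρ (ψ (ψ^[e-1] g)) x - x) = ρ (ψ^[e-1] g) (θ x) - θ x ∈ Y`.  General `a` by induction, general `m` by induction. -/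
def JtiStmt : Prop := ∀ (P : Type) [Group P] (p : ℕ) (ψ : P →* P) (X : Type) [AddCommGroup X]
  (θ : X →+ X) (ρ : P →* AddMonoid.End X), Uni p ψ θ ρ → ∀ (a : ℕ) (Y Y' : AddSubgroup X),
  (∀ x, x ∈ Y' ↔ (⇑θ)^[a] x ∈ Y) → ∀ (m : ℕ) (x : X),
    x ∈ (Jo ρ)^[m] Y' ↔ (⇑θ)^[a] x ∈ (Jo ρ)^[m] Y

/-- JFI (uses FNK): more on `J`.

Proof.  (1) clear.  (2) `J ⊥` = the fixed points, stable under `θ` (`ρ g (θ x) = θ (ρ (ψ g) x) = θ x`) and `P`, not everything (`non`), so finite (`smp`,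
`H = ⊤`).  Let `S` be a finite generating set: `J Y → (S → Y)`, `x ↦ (ρ s x - x)`, has fibres which are cosets of the fixed points of all `s ∈ S`, i.e. of `J ⊥`.
(3) clear.  (4) `ρ g' (ρ g x) - ρ g x = ρ g (ρ (g⁻¹ g' g) x - x)`.  (5) `one`.  (6) for no `a` is `{θ^[a] x = 0} ⊆ Y` for all `a` (`nil`: `Y` would be `X`).
(7) `Y` is stable under `θ` by induction on `n`: `⊥`; `x ∈ J Y`: `ρ g (θ x) - θ x = θ (ρ (ψ g) x - x) ∈ Y`. -/
def JfiStmt : Prop := ∀ (P : Type) [Group P] [Group.FG P] (p : ℕ) (ψ : P →* P) (X : Type)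
  [AddCommGroup X] (θ : X →+ X) (ρ : P →* AddMonoid.End X), Uni p ψ θ ρ →
  (∀ Y Y' : AddSubgroup X, Y ≤ Y' → Jo ρ Y ≤ Jo ρ Y') ∧
  (∀ Y : AddSubgroup X, (Y : Set X).Finite → (Jo ρ Y : Set X).Finite) ∧
  (∀ Y : AddSubgroup X, (∀ g, ∀ y ∈ Y, ρ g y ∈ Y) → Y ≤ Jo ρ Y) ∧
  (∀ Y : AddSubgroup X, (∀ g, ∀ y ∈ Y, ρ g y ∈ Y) → ∀ g, ∀ y ∈ Jo ρ Y, ρ g y ∈ Jo ρ Y) ∧
  (∀ (Y : AddSubgroup X) (j : ℕ), (∀ x, (⇑θ)^[j] x = 0 → x ∈ Y) →
    ∀ x, (⇑θ)^[j + 1] x = 0 → x ∈ Jo ρ Y) ∧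
  (∀ Y : AddSubgroup X, (Y : Set X).Finite → ∃ (a : ℕ) (x : X), (⇑θ)^[a] x = 0 ∧ x ∉ Y) ∧
  (∀ Y : AddSubgroup X, (∀ y ∈ Y, θ y ∈ Y) → ∀ y ∈ Jo ρ Y, θ y ∈ Jo ρ Y)

/-- RTA (uses JFI, JTI, FNK): `H_n = J^n 0 = θ^(-a_n) (P_n)`.

Proof.  `H_n = (Jo ρ)^[n] ⊥` is finite, stable under `P` and `θ`, and contains `{θ^[n] x = 0}` (JFI, induction).  `a n` = the largest `a` with
`{θ^[a] x = 0} ⊆ H_n` (exists by JFI (6); `Nat.find`, and `{θ^[a] x = 0}` increases with `a`).  `Q n` = the image of `H_n` under `θ^[a n]`.  `x ∈ H_n ↔ θ^[a n] x ∈ Q n`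
as `{θ^[a n] x = 0} ⊆ H_n`.  `Q n` is finite, stable under `θ`, and under `P`: `ρ g (θ^[a] x) = θ^[a] (ρ (ψ^[a] g) x)` (FNK).  If all `y` with `θ y = 0` were in `Q n`, every
`x` with `θ^[a n + 1] x = 0` would be in `H_n`, against the choice of `a n`. -/
def RtaStmt : Prop := ∀ (P : Type) [Group P] [Group.FG P] (p : ℕ) (ψ : P →* P) (X : Type)
  [AddCommGroup X] (θ : X →+ X) (ρ : P →* AddMonoid.End X), Uni p ψ θ ρ →
  ∃ (a : ℕ → ℕ) (Q : ℕ → AddSubgroup X), (∀ n, n ≤ a n) ∧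
    (∀ n x, x ∈ (Jo ρ)^[n] ⊥ ↔ (⇑θ)^[a n] x ∈ Q n) ∧ (∀ n, ∀ x ∈ Q n, θ x ∈ Q n) ∧
    (∀ n g, ∀ x ∈ Q n, ρ g x ∈ Q n) ∧ ∀ n, ∃ x, θ x = 0 ∧ x ∉ Q n

/-- RTB (uses FNK): compactness.

Proof.  `U` an ultrafilter on `ℕ` containing no finite set (`Filter.hyperfilter ℕ`); `Y = {x | ∀ᶠ n in U, x ∈ Q n}` is a subgroup stable under `θ` and `P`.  If every `x` with `θ x = 0` were in `Y`
then (finitely many `x`) for `U`-almost all `n` all of them would be in `Q n`; so `Y ≠ ⊤`, `Y` is finite (`smp`, `H = ⊤`), so `θ^[b] y = 0` for all `y ∈ Y`, some `b`.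
`{θ^[b+1] x = 0}` is finite, so for `U`-almost all `n`: every `x ∈ Q n` with `θ^[b+1] x = 0` is in `Y`, so `θ^[b] x = 0`.  Then `θ^[b] x = 0` for all `x ∈ Q n`: otherwise take the
least `c` with `θ^[c] x = 0`, `c ≥ b + 1`, and `x' = θ^[c-b-1] x ∈ Q n`: `θ^[b+1] x' = 0`, `θ^[b] x' ≠ 0`. -/
def RtbStmt : Prop := ∀ (P : Type) [Group P] (ψ : P →* P) (X : Type) [AddCommGroup X] (θ : X →+ X)
  (ρ : P →* AddMonoid.End X), Simp ψ θ ρ → ∀ Q : ℕ → AddSubgroup X, (∀ n, ∀ x ∈ Q n, θ x ∈ Q n) →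
  (∀ n g, ∀ x ∈ Q n, ρ g x ∈ Q n) → (∀ n, ∃ x, θ x = 0 ∧ x ∉ Q n) →
  ∃ b : ℕ, {n | ∀ x ∈ Q n, (⇑θ)^[b] x = 0}.Infinite

/-- RET (uses RTA, RTB, JTI, FNK): return.

Proof.  The set of the subgroups of `X` contained in the finite set `{θ^[b] x = 0}` is finite, so some `Q` is `Q n` for infinitely many `n`.  Choose two such, `n1 < n2` with
`a n1 < n2 ≤ a n2`; `m = n2 - n1`, `c = a n2 - a n1`.  By JTI (`a = a n1`): `x ∈ (Jo ρ)^[n2] ⊥ = (Jo ρ)^[m] ((Jo ρ)^[n1] ⊥)` iff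
`θ^[a n1] x ∈ (Jo ρ)^[m] Q`, and iff `θ^[a n2] x ∈ Q`.  `θ^[a n1]` is onto. -/
def RetStmt : Prop := ∀ (P : Type) [Group P] [Group.FG P] (p : ℕ) (ψ : P →* P) (X : Type)
  [AddCommGroup X] (θ : X →+ X) (ρ : P →* AddMonoid.End X), Uni p ψ θ ρ →
  ∃ (Q : AddSubgroup X) (m c : ℕ), 1 ≤ m ∧ 1 ≤ c ∧ (Q : Set X).Finite ∧
    (∀ g, ∀ x ∈ Q, ρ g x ∈ Q) ∧ ∀ x, x ∈ (Jo ρ)^[m] Q ↔ (⇑θ)^[c] x ∈ Q

/-! ## 3. The cyclic space -/

/-- a filtration `F` with period `M` under `τ`; `φ` is an endomorphism of `P` with `τ (φ g x) = g (τ x)` -/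
structure Cyc {P : Type} [Group P] (p : ℕ) (φ : P →* P) {X : Type} [AddCommGroup X] (τ : X →+ X)
    (ρ : P →* AddMonoid.End X) (F : ℕ → AddSubgroup X) (M : ℕ) : Prop where
  prm : p.Prime
  exp : ∀ x : X, p • x = 0
  pos : 1 ≤ M
  sur : Function.Surjective τ
  eqv : ∀ g x, τ (ρ (φ g) x) = ρ g (τ x)
  mono : ∀ i, F i ≤ F (i + 1)
  fin : ∀ i, (F i : Set X).Finite
  ne : ∃ x ∈ F 1, x ∉ F 0
  stb : ∀ g i, ∀ x ∈ F i, ρ g x ∈ F i
  act : ∀ g i, ∀ x ∈ F (i + 1), ρ g x - x ∈ F i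
  sht : ∀ i x, x ∈ F (i + M) ↔ τ x ∈ F i
  per : ∀ g i, ∀ x ∈ F (i + 2), ρ (φ g) x - ρ g x ∈ F i
  det : ∀ i x, x ∉ F (i + 1) → ∃ g, ρ g x - x ∉ F i

/-- CYC (uses RET, JFI, JTI, FNK): the filtration.

Proof.  `F i = (Jo ρ)^[i] Q` (RET).  `F 0 = Q ≤ J Q`, so `mono` (JFI (1), (3)); finite, `P`-stable (JFI (2), (4)).  `act`, `det`: definition of `J`
(`Function.iterate_succ_apply'`).  `x ∈ F (i + m) ↔ θ^[c] x ∈ F i` by JTI (`Y = Q`, `Y' = (Jo ρ)^[m] Q`), so `x ∈ F (i + k m) ↔ θ^[k c] x ∈ F i`.  `ne`: if `F 1 ≤ F 0` then all `F i = F 0`,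
and `F (k m)` contains `{θ^[k c] x = 0}` for all `k`, against JFI (6).  Period: choose `I` with `θ^[I] x = 0` for all `x ∈ F (m + 1)` (finite) and `e ≥ 1` from `per` for `I`.
`M = m e`, `E = c e`, `τ x = θ^[E] x`, `φ g = ψ^[E] g`.  `per`: `x ∈ F (i + 2)`, `i = i0 + k m`, `i0 < m`: `θ^[k c] x ∈ F (i0 + 2) ≤ F (m + 1)`, so `θ^[I + k c] x = 0` and
`θ^[k c] (ρ (ψ^[e] g') x - ρ g' x) = 0 ∈ F i0`, so `ρ (ψ^[e] g') x - ρ g' x ∈ F i` for all `g'`; add these for `g' = ψ^[e l] g`, `l < c`.  (`τ`, `φ` as homomorphisms: powers in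
`AddMonoid.End X`, `Monoid.End P`, or recursion.) -/
def CycStmt : Prop := ∀ (P : Type) [Group P] [Group.FG P] (p : ℕ) (ψ : P →* P) (X : Type)
  [AddCommGroup X] (θ : X →+ X) (ρ : P →* AddMonoid.End X), Uni p ψ θ ρ →
  ∃ (φ : P →* P) (τ : X →+ X) (F : ℕ → AddSubgroup X) (M : ℕ), Cyc p φ τ ρ F M

/-- the `τ`-periodic sequences -/
def Wz {X : Type} [AddCommGroup X] (τ : X →+ X) (F : ℕ → AddSubgroup X) (M : ℕ) :
    AddSubgroup (ℕ → X) where
  carrier := {z | ∀ i, z i ∈ F (i + 1) ∧ τ (z (i + M)) - z i ∈ F i}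
  zero_mem' := by
    intro i
    simp
  add_mem' := by
    intro a b ha hb i
    refine ⟨(F (i + 1)).add_mem (ha i).1 (hb i).1, ?_⟩
    have h : τ ((a + b) (i + M)) - (a + b) i = (τ (a (i + M)) - a i) + (τ (b (i + M)) - b i) := by
      simp only [Pi.add_apply, map_add]
      abel
    rw [h]
    exact (F i).add_mem (ha i).2 (hb i).2
  neg_mem' := by
    intro a ha i
    refine ⟨(F (i + 1)).neg_mem (ha i).1, ?_⟩
    have h : τ ((-a) (i + M)) - (-a) i = -(τ (a (i + M)) - a i) := by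
      simp only [Pi.neg_apply, map_neg]
      abel
    rw [h]
    exact (F i).neg_mem (ha i).2

/-- the sequences which are zero modulo `F i` in each place -/
def W0 {X : Type} [AddCommGroup X] (τ : X →+ X) (F : ℕ → AddSubgroup X) (M : ℕ) :
    AddSubgroup (Wz τ F M) where
  carrier := {z | ∀ i, (z : ℕ → X) i ∈ F i}
  zero_mem' := by
    intro i
    simp
  add_mem' := by
    intro a b ha hb i
    exact (F i).add_mem (ha i) (hb i)
  neg_mem' := by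
    intro a ha i
    exact (F i).neg_mem (ha i)

/-- the space `W` -/
abbrev Wq {X : Type} [AddCommGroup X] (τ : X →+ X) (F : ℕ → AddSubgroup X) (M : ℕ) : Type :=
  Wz τ F M ⧸ W0 τ F M

/-- `T` is the symbol of degree `s` of `g - 1` -/
def Sym {P : Type} [Group P] {X : Type} [AddCommGroup X] (τ : X →+ X) (ρ : P →* AddMonoid.End X)
    (F : ℕ → AddSubgroup X) (M : ℕ) (g : P) (s : ℕ) (T : AddMonoid.End (Wq τ F M)) : Prop :=
  1 ≤ s ∧ (∀ i, ∀ x ∈ F (i + s), ρ g x - x ∈ F i) ∧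
  ∀ z : Wz τ F M, ∃ z' : Wz τ F M,
    T (QuotientAddGroup.mk z) = QuotientAddGroup.mk z' ∧
    ∀ i, ρ g ((z : ℕ → X) (i + s)) - (z : ℕ → X) (i + s) - (z' : ℕ → X) i ∈ F i

/-- WFI: `W` is finite and not zero.

Proof.  Finite: if `z ∈ Wz` has `z i ∈ F i` for all `i < M` then for all `i` (induction: `τ (z (i+M)) ∈ z i + F i = F i`, `sht`).  So `W → ∏ i < M, F (i+1) / F i` is injective; or:
`z ↦ (z i)_(i<M)` takes values in a finite set, and two `z` with the same values have the same class.  Not zero: `x ∈ F 1`, `x ∉ F 0`; `z i = 0` if `M` does not divide `i`, `z 0 = x`,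
`z ((k+1) M)` some element with `τ (z ((k+1) M)) = z (k M)` (`sur`), in `F (1 + (k+1) M)` by `sht`. -/
def WfiStmt : Prop := ∀ (P : Type) [Group P] (p : ℕ) (φ : P →* P) (X : Type) [AddCommGroup X]
  (τ : X →+ X) (ρ : P →* AddMonoid.End X) (F : ℕ → AddSubgroup X) (M : ℕ), Cyc p φ τ ρ F M →
  Finite (Wq τ F M) ∧ Nontrivial (Wq τ F M)

/-- EXN: the symbol of degree one exists.

Proof.  `T [z] = [z']`, `z' i = ρ g (z (i+1)) - z (i+1)`.  `z' i ∈ F (i+1)` (`act`).  `τ (z' (i+M)) - z' i ∈ F i`: `y = z (i+M+1) ∈ F (i+M+2)`; `ρ g y - ρ (φ g) y ∈ F (i+M)` (`per`), so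
`τ (ρ g y) ∈ τ (ρ (φ g) y) + F i = ρ g (τ y) + F i` (`sht`, `eqv`); `τ y = z (i+1) + f`, `f ∈ F (i+1)`, and `ρ g f - f ∈ F i`.  It is additive and maps `W0` into `W0` (`act`):
`QuotientAddGroup.map` or `QuotientAddGroup.lift`. -/
def ExnStmt : Prop := ∀ (P : Type) [Group P] (p : ℕ) (φ : P →* P) (X : Type) [AddCommGroup X]
  (τ : X →+ X) (ρ : P →* AddMonoid.End X) (F : ℕ → AddSubgroup X) (M : ℕ), Cyc p φ τ ρ F M →
  ∀ g : P, ∃ T : AddMonoid.End (Wq τ F M), Sym τ ρ F M g 1 T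

/-- CLO: symbols of commutators.

Proof.  `k = g h g⁻¹ h⁻¹`, `ρ k - 1 = (AB - BA) ρ ((h g)⁻¹)` with `A = ρ g - 1`, `B = ρ h - 1` (`ρ g ρ h - ρ h ρ g = AB - BA`).  `A : F (i+s) → F i`, `B : F (i+t) → F i`,
`ρ ((h g)⁻¹)` preserves every `F i`: so `ρ k - 1 : F (i+s+t) → F i`.  For `z`: `U [z] = [z1]`, `T [z1] = [z2]`: `B (z (i+s+t)) = z1 (i+s) + f`, `f ∈ F (i+s)`, `A f ∈ F i`,
`A (z1 (i+s)) ∈ z2 i + F i`; so `A B (z (i+s+t)) ∈ z2 i + F i`, and the same for `B A`.  `ρ ((h g)⁻¹) (z (i+s+t)) = z (i+s+t) + f'` with `f' ∈ F (i+s+t)` (`act`, as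
`z (i+s+t) ∈ F (i+s+t+1)`), and `(AB - BA) f' ∈ F i`. -/
def CloStmt : Prop := ∀ (P : Type) [Group P] (p : ℕ) (φ : P →* P) (X : Type) [AddCommGroup X]
  (τ : X →+ X) (ρ : P →* AddMonoid.End X) (F : ℕ → AddSubgroup X) (M : ℕ), Cyc p φ τ ρ F M →
  ∀ (g h : P) (s t : ℕ) (T U : AddMonoid.End (Wq τ F M)), Sym τ ρ F M g s T → Sym τ ρ F M h t U →
    Sym τ ρ F M (g * h * g⁻¹ * h⁻¹) (s + t) (T * U - U * T)

/-- NLT: symbols of torsion elements are nilpotent.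

Proof.  `g ^ (p^a q) = 1`, `p` does not divide `q`.  (a) `Sym (g^i) s (i • T)` for `i ≥ 1` (induction: `ρ (g^(i+1)) - 1 = (ρ (g^i) - 1)(ρ g - 1) + (ρ (g^i) - 1) + (ρ g - 1)`; the first term maps
`F (j+s+1)` into `F j` because `ρ g - 1` maps it to `F (j+1)` and `act`; it maps `F (j+s)` to `F j` by `stb`).  (b) `D = ρ (g^q) - 1`, `T' = q • T`: for all `m`, `z` there is `z'` with
`T'^m [z] = [z']` and `D^m (z (i + m s)) - z' i ∈ F i` (induction).  (c) `D^(p^a) = ρ (g^(q p^a)) - 1 = 0` since `p X = 0` (`sub_pow_char_pow_of_commute` in `AddMonoid.End X`, or the binomial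
formula): `T'^(p^a) = 0`.  (d) `q^(p^a) • T^(p^a) = 0` and `p • T^(p^a) = 0` (`p W = 0`), so `T^(p^a) = 0` (Bezout). -/
def NltStmt : Prop := ∀ (P : Type) [Group P] (p : ℕ) (φ : P →* P) (X : Type) [AddCommGroup X]
  (τ : X →+ X) (ρ : P →* AddMonoid.End X) (F : ℕ → AddSubgroup X) (M : ℕ), Cyc p φ τ ρ F M →
  ∀ (g : P) (s : ℕ) (T : AddMonoid.End (Wq τ F M)), IsOfFinOrder g → Sym τ ρ F M g s T →
    IsNilpotent T

/-- JAC (done: `Pool/Agent/Helper23_ZGO/Jac.lean`, theorem `jac`): Jacobson's theorem on weakly closed sets of nilpotent endomorphisms. -/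
def JacStmt : Prop := ∀ (W : Type) [AddCommGroup W] [Finite W] [Nontrivial W]
  (S : Set (AddMonoid.End W)), (∀ t ∈ S, ∀ u ∈ S, t * u - u * t ∈ S) → (∀ t ∈ S, IsNilpotent t) →
  ∃ w : W, w ≠ 0 ∧ ∀ t ∈ S, t w = 0

/-- CTR (uses WFI, EXN, CLO, NLT, JAC): contradiction.

Proof.  `S = {T | ∃ g s, Sym g s T}` is closed under `T U - U T` (CLO) and consists of nilpotent elements (NLT): JAC gives `w = [z] ≠ 0` killed by `S`.  Some `z i ∉ F i`; and some with `i ≥ 1`: if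
`z 0 ∉ F 0` then `z M ∉ F M` (otherwise `τ (z M) ∈ F 0` and `z 0 ∈ F 0`).  `i = j + 1`: `det` gives `g` with `ρ g (z (j+1)) - z (j+1) ∉ F j`.  EXN: `T` for `g`; `T [z] = 0 = [z']`, so `z' j ∈ F j` and
`ρ g (z (j+1)) - z (j+1) - z' j ∈ F j`: contradiction. -/
def CtrStmt : Prop := ∀ (P : Type) [Group P] (p : ℕ) (φ : P →* P) (X : Type) [AddCommGroup X]
  (τ : X →+ X) (ρ : P →* AddMonoid.End X) (F : ℕ → AddSubgroup X) (M : ℕ), Cyc p φ τ ρ F M →
  (∀ g : P, IsOfFinOrder g) → False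

/-- BMN (uses MIN, CUG, PRI, DIV, PER, ONE, CYC, CTR): the main theorem of part B.

Proof.  MIN: replace `(P, X)` by `(H, Z)` (`H` is finitely generated and torsion).  PRI.  Divisible case: DIV.  `p X = 0`: ONE and CUG: replace `P` by the subgroup of ONE; PER for the new group.
If the action is not trivial: `Uni`, CYC, CTR.  A subgroup of finite index of a subgroup of finite index is mapped to a subgroup of finite index of `P`; `Z` (as a subgroup of `X`) is infinite. -/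
def BmnStmt : Prop := ∀ (P : Type) [Group P] [Group.FG P] (ψ : P →* P) (X : Type) [AddCommGroup X]
  (θ : X →+ X) (ρ : P →* AddMonoid.End X), (∀ g : P, IsOfFinOrder g) → Shift ψ θ ρ →
  ∃ (H : Subgroup P) (Z : AddSubgroup X), H.FiniteIndex ∧ (Z : Set X).Infinite ∧
    ∀ h ∈ H, ∀ z ∈ Z, ρ h z = z

end Pool.Agent.ZGO
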